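import Mathlib

set_option autoImplicit false

namespace Pool.Agent.Results.MP_f2c072_co.Eleven

open Finset Equiv

/-- the block of `σ` of length `k` starting at position `i` has reduction `p` -/
def Occ {n k : ℕ} (σ : Perm (Fin n)) (i : ℕ) (p : Perm (Fin k)) : Prop :=
  ∃ h : i + k ≤ n, ∀ a b : Fin k,
    σ ⟨i + a, by omega⟩ < σ ⟨i + b, by omega⟩ ↔ p a < p b

open Classical in
/-- number of permutations of `n` letters avoiding both `p` and `q` consecutively -/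
noncomputable def alpha (n : ℕ) {k : ℕ} (p q : Perm (Fin k)) : ℕ :=
  (univ.filter (fun σ : Perm (Fin n) => ∀ i, ¬ Occ σ i p ∧ ¬ Occ σ i q)).card

/-- `123465` -/
def t1 : Perm (Fin 6) := swap 4 5
/-- `123564` -/
def t2 : Perm (Fin 6) := swap 3 4 * swap 4 5
/-- `134265` -/
def t3 : Perm (Fin 6) := swap 1 2 * swap 2 3 * swap 4 5

def emb (i : Fin 6) : Fin 6 ↪ Fin 11 := ⟨fun a => ⟨i + a, by omega⟩, fun a b h => by
  simp only [Fin.mk.injEq] at h; omega⟩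

def L0 : List (List ℕ) := [[0, 1, 2, 4, 5, 3, 6, 7, 8, 10, 9],
  [0, 1, 2, 4, 6, 3, 5, 7, 8, 10, 9],
  [0, 1, 2, 4, 7, 3, 5, 6, 8, 10, 9],
  [0, 1, 2, 4, 8, 3, 5, 6, 7, 10, 9],
  [0, 1, 2, 4, 9, 3, 5, 6, 7, 10, 8],
  [0, 1, 2, 4, 10, 3, 5, 6, 7, 9, 8],
  [0, 1, 2, 5, 6, 3, 4, 7, 8, 10, 9],
  [0, 1, 2, 5, 7, 3, 4, 6, 8, 10, 9],
  [0, 1, 2, 5, 8, 3, 4, 6, 7, 10, 9],
  [0, 1, 2, 5, 9, 3, 4, 6, 7, 10, 8],
  [0, 1, 2, 5, 10, 3, 4, 6, 7, 9, 8],
  [0, 1, 2, 6, 7, 3, 4, 5, 8, 10, 9],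
  [0, 1, 2, 6, 8, 3, 4, 5, 7, 10, 9],
  [0, 1, 2, 6, 9, 3, 4, 5, 7, 10, 8],
  [0, 1, 2, 6, 10, 3, 4, 5, 7, 9, 8],
  [0, 1, 2, 7, 8, 3, 4, 5, 6, 10, 9],
  [0, 1, 2, 7, 9, 3, 4, 5, 6, 10, 8],
  [0, 1, 2, 7, 10, 3, 4, 5, 6, 9, 8],
  [0, 1, 2, 8, 9, 3, 4, 5, 6, 10, 7],
  [0, 1, 2, 8, 10, 3, 4, 5, 6, 9, 7],
  [0, 1, 2, 9, 10, 3, 4, 5, 6, 8, 7],
  [0, 1, 2, 4, 5, 3, 6, 7, 9, 10, 8],
  [0, 1, 2, 4, 6, 3, 5, 7, 9, 10, 8],
  [0, 1, 2, 4, 7, 3, 5, 6, 9, 10, 8],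
  [0, 1, 2, 4, 8, 3, 5, 6, 9, 10, 7]]

def L : List (Fin 11 → Fin 11) := L0.map (fun l i => Fin.ofNat 11 (l.getD i 0))

theorem L_ok : ∀ f ∈ L, (∀ a b, f a = f b → a = b) ∧ (∀ a b, f (emb 0 a) < f (emb 0 b) ↔ t2 a < t2 b) ∧
    ((∀ a b, f (emb 5 a) < f (emb 5 b) ↔ t1 a < t1 b) ∨
      ∀ a b, f (emb 5 a) < f (emb 5 b) ↔ t2 a < t2 b) :=
  fun f hf => of_decide_eq_true (List.all_eq_true.1 (show L.all (fun f => decide
    ((∀ a b, f a = f b → a = b) ∧ (∀ a b, f (emb 0 a) < f (emb 0 b) ↔ t2 a < t2 b) ∧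
    ((∀ a b, f (emb 5 a) < f (emb 5 b) ↔ t1 a < t1 b) ∨
      ∀ a b, f (emb 5 a) < f (emb 5 b) ↔ t2 a < t2 b))) = true by decide +kernel) f hf)

theorem L_card : 25 ≤ L.toFinset.card := by
  rw [List.toFinset_card_of_nodup]
  · rfl
  · refine List.Nodup.of_map (fun f => (f 3, f 4, f 8)) (by decide +kernel)

theorem f2 (T : Finset (Fin 6)) [h1 : Decidable T.Nonempty] [h2 : Decidable (0 ∈ T ∧ 5 ∈ T)] :
    ((if T.Nonempty then 1 else 0) + if 0 ∈ T ∧ 5 ∈ T then 1 else 0) ≤ T.card := by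
  have : ∀ T : Finset (Fin 6), ((if T.Nonempty then 1 else 0) + if 0 ∈ T ∧ 5 ∈ T then 1 else 0) ≤
    T.card := by decide +kernel
  convert this T

theorem f3 (T : Finset (Fin 6)) [h1 : Decidable T.Nonempty] [h2 : Decidable (0 ∈ T ∧ 5 ∈ T)]
    (h : ∀ i ∈ T, ∀ j ∈ T, i < j → i = 0 ∧ j = 5) : T.card ≤
    ((if T.Nonempty then 1 else 0) + if 0 ∈ T ∧ 5 ∈ T then 1 else 0) := by
  have : ∀ T : Finset (Fin 6), (∀ i ∈ T, ∀ j ∈ T, i < j → i = 0 ∧ j = 5) → T.card ≤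
    ((if T.Nonempty then 1 else 0) + if 0 ∈ T ∧ 5 ∈ T then 1 else 0) := by decide +kernel
  convert this T h

theorem f4 : ∀ p ∈ [t1, t3], ∀ q ∈ [t1, t3], ∀ i j : Fin 6, i < j → (i = 0 ∧ j = 5) ∨ ¬ ∀ a c,
    emb i a = emb j c → ∀ b d, emb i b = emb j d → (p a < p b ↔ q c < q d) := by decide +kernel

theorem f5 : t1 ≠ t3 := by decide
theorem f6 : ¬ ∀ a b, t1 a < t1 b ↔ t2 a < t2 b := by decide
theorem f7 : ¬ ∀ a b, t1 a < t1 b ↔ t3 a < t3 b := by decide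

open scoped Classical

theorem g2 {α : Type} (U : Finset α) (T : α → Finset (Fin 6)) : (U.filter (fun σ => (T σ).Nonempty)).card +
    (U.filter (fun σ => 0 ∈ T σ ∧ 5 ∈ T σ)).card ≤ ∑ σ ∈ U, (T σ).card := by
  rw [card_filter, card_filter, ← sum_add_distrib]
  exact sum_le_sum (fun σ _ => f2 _)

theorem g3 {α : Type} (U : Finset α) (T : α → Finset (Fin 6))
    (h : ∀ σ, ∀ i ∈ T σ, ∀ j ∈ T σ, i < j → i = 0 ∧ j = 5) : ∑ σ ∈ U, (T σ).card ≤
    (U.filter (fun σ => (T σ).Nonempty)).card + (U.filter (fun σ => 0 ∈ T σ ∧ 5 ∈ T σ)).card := by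
  rw [card_filter, card_filter, ← sum_add_distrib]
  exact sum_le_sum (fun σ _ => f3 _ (h σ))

theorem occ_iff (σ : Perm (Fin 11)) (i : Fin 6) (p : Perm (Fin 6)) :
    Occ σ i p ↔ ∀ a b, σ (emb i a) < σ (emb i b) ↔ p a < p b :=
  ⟨fun ⟨_, h⟩ => h, fun h => ⟨by omega, h⟩⟩

theorem same (i : Fin 6) (p q : Perm (Fin 6)) :
    (univ.filter (fun σ : Perm (Fin 11) => Occ σ i p)).card =
      (univ.filter (fun σ : Perm (Fin 11) => Occ σ i q)).card := by
  refine card_bijective (· * (p⁻¹ * q).viaEmbedding (emb i)) (Group.mulRight_bijective _) (fun σ => ?_)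
  simp only [mem_filter, mem_univ, true_and, occ_iff, Perm.mul_apply, Perm.viaEmbedding_apply]
  exact ⟨fun h a b => by simp [h], fun h a b => by simpa using h (q⁻¹ (p a)) (q⁻¹ (p b))⟩

theorem clash (σ : Perm (Fin 11)) (i j : Fin 6) (p q : Perm (Fin 6)) (h1 : Occ σ i p) (h2 : Occ σ j q) :
    ∀ a c, emb i a = emb j c → ∀ b d, emb i b = emb j d → (p a < p b ↔ q c < q d) := by
  intro a c e1 b d e2
  rw [← (occ_iff _ _ _).1 h1, ← (occ_iff _ _ _).1 h2, e1, e2]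

noncomputable def S (p q : Perm (Fin 6)) (σ : Perm (Fin 11)) : Finset (Fin 6) :=
  univ.filter (fun i => Occ σ i p ∨ Occ σ i q)

theorem total (p q : Perm (Fin 6)) (h : ¬ ∀ a b, p a < p b ↔ q a < q b) :
    ∑ σ, (S p q σ).card = ∑ i : Fin 6, 2 * (univ.filter (fun σ : Perm (Fin 11) => Occ σ i p)).card := by
  simp only [S, card_filter]
  rw [sum_comm]
  refine sum_congr rfl (fun i _ => ?_)
  rw [← card_filter, ← card_filter, filter_or, card_union_of_disjoint, ← same i p q, two_mul]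
  exact disjoint_filter.2 (fun σ _ h1 h2 => h (fun a b => clash σ i i p q h1 h2 a a rfl b b rfl))

theorem alpha_eq (p q : Perm (Fin 6)) : alpha 11 p q +
    (univ.filter (fun σ => (S p q σ).Nonempty)).card = Fintype.card (Perm (Fin 11)) := by
  rw [← card_univ, ← card_filter_add_card_filter_not (s := univ) (fun σ => (S p q σ).Nonempty), add_comm (alpha _ _ _), alpha]
  refine congrArg (HAdd.hAdd _) (congrArg Finset.card ?_)
  ext σ
  simp only [S, mem_filter, true_and, not_nonempty_iff_eq_empty, filter_eq_empty_iff, mem_univ, true_implies, not_or]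
  exact ⟨fun h i => h i, fun h i => ⟨fun e => (@h ⟨i, by obtain ⟨_, -⟩ := e; omega⟩).1 e,
    fun e => (@h ⟨i, by obtain ⟨_, -⟩ := e; omega⟩).2 e⟩⟩

theorem many : 25 ≤ (univ.filter (fun σ => 0 ∈ S t1 t2 σ ∧ 5 ∈ S t1 t2 σ)).card := by
  refine le_trans ?_ (card_image_le (f := fun σ : Perm (Fin 11) => (σ : Fin 11 → Fin 11)))
  refine le_trans L_card (card_le_card (s := L.toFinset) (fun f hf => ?_))
  obtain ⟨h1, h2, h3⟩ := L_ok f (List.mem_toFinset.1 hf)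
  refine mem_image.2 ⟨ofBijective f (Function.Injective.bijective_of_finite h1), ?_, rfl⟩
  simp only [S, mem_filter, mem_univ, true_and, occ_iff]
  exact ⟨Or.inr h2, h3⟩

theorem six (p q : Perm (Fin 6)) (hp : p = t1 ∨ p = t3) (hq : q = t1 ∨ q = t3) :
    (univ.filter (fun σ : Perm (Fin 11) => Occ σ (0 : Fin 6) p ∧ Occ σ (5 : Fin 6) q)).card ≤ 6 := by
  have key : ∀ σ : Perm (Fin 11), Occ σ (0 : Fin 6) p ∧ Occ σ (5 : Fin 6) q → ∃ a b c d e f g h : Fin 11,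
      (∀ i : Fin 11, i = 0 ∨ i = a ∨ i = b ∨ i = c ∨ i = 4 ∨ i = 5 ∨ i = d ∨ i = e ∨ i = f ∨ i = g ∨ i = h) ∧
      ∀ τ : Perm (Fin 11), Occ τ (0 : Fin 6) p ∧ Occ τ (5 : Fin 6) q →
      τ 0 < τ a ∧ τ a < τ b ∧ τ b < τ c ∧ τ c < τ 5 ∧ τ 5 < τ 4 ∧ τ 5 < τ d ∧ τ d < τ e ∧ τ e < τ f ∧
        τ f < τ g ∧ τ g < τ h ∧ τ 4 ≠ τ d ∧ τ 4 ≠ τ e ∧ τ 4 ≠ τ f ∧ τ 4 ≠ τ g ∧ τ 4 ≠ τ h := by
    intro _ _
    rcases hp with rfl | rfl <;> rcases hq with rfl | rfl
    · exact ⟨1, 2, 3, 6, 7, 8, 10, 9, by decide, fun τ h => ⟨((occ_iff _ _ _).1 h.1 0 1).2 (by decide),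
        ((occ_iff _ _ _).1 h.1 1 2).2 (by decide),
        ((occ_iff _ _ _).1 h.1 2 3).2 (by decide),
        ((occ_iff _ _ _).1 h.1 3 5).2 (by decide),
        ((occ_iff _ _ _).1 h.1 5 4).2 (by decide),
        ((occ_iff _ _ _).1 h.2 0 1).2 (by decide),
        ((occ_iff _ _ _).1 h.2 1 2).2 (by decide),
        ((occ_iff _ _ _).1 h.2 2 3).2 (by decide),
        ((occ_iff _ _ _).1 h.2 3 5).2 (by decide),
        ((occ_iff _ _ _).1 h.2 5 4).2 (by decide),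
        τ.injective.ne (by decide),
        τ.injective.ne (by decide),
        τ.injective.ne (by decide),
        τ.injective.ne (by decide),
        τ.injective.ne (by decide)⟩⟩
    · exact ⟨1, 2, 3, 8, 6, 7, 10, 9, by decide, fun τ h => ⟨((occ_iff _ _ _).1 h.1 0 1).2 (by decide),
        ((occ_iff _ _ _).1 h.1 1 2).2 (by decide),
        ((occ_iff _ _ _).1 h.1 2 3).2 (by decide),
        ((occ_iff _ _ _).1 h.1 3 5).2 (by decide),
        ((occ_iff _ _ _).1 h.1 5 4).2 (by decide),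
        ((occ_iff _ _ _).1 h.2 0 3).2 (by decide),
        ((occ_iff _ _ _).1 h.2 3 1).2 (by decide),
        ((occ_iff _ _ _).1 h.2 1 2).2 (by decide),
        ((occ_iff _ _ _).1 h.2 2 5).2 (by decide),
        ((occ_iff _ _ _).1 h.2 5 4).2 (by decide),
        τ.injective.ne (by decide),
        τ.injective.ne (by decide),
        τ.injective.ne (by decide),
        τ.injective.ne (by decide),
        τ.injective.ne (by decide)⟩⟩
    · exact ⟨3, 1, 2, 6, 7, 8, 10, 9, by decide, fun τ h => ⟨((occ_iff _ _ _).1 h.1 0 3).2 (by decide),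
        ((occ_iff _ _ _).1 h.1 3 1).2 (by decide),
        ((occ_iff _ _ _).1 h.1 1 2).2 (by decide),
        ((occ_iff _ _ _).1 h.1 2 5).2 (by decide),
        ((occ_iff _ _ _).1 h.1 5 4).2 (by decide),
        ((occ_iff _ _ _).1 h.2 0 1).2 (by decide),
        ((occ_iff _ _ _).1 h.2 1 2).2 (by decide),
        ((occ_iff _ _ _).1 h.2 2 3).2 (by decide),
        ((occ_iff _ _ _).1 h.2 3 5).2 (by decide),
        ((occ_iff _ _ _).1 h.2 5 4).2 (by decide),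
        τ.injective.ne (by decide),
        τ.injective.ne (by decide),
        τ.injective.ne (by decide),
        τ.injective.ne (by decide),
        τ.injective.ne (by decide)⟩⟩
    · exact ⟨3, 1, 2, 8, 6, 7, 10, 9, by decide, fun τ h => ⟨((occ_iff _ _ _).1 h.1 0 3).2 (by decide),
        ((occ_iff _ _ _).1 h.1 3 1).2 (by decide),
        ((occ_iff _ _ _).1 h.1 1 2).2 (by decide),
        ((occ_iff _ _ _).1 h.1 2 5).2 (by decide),
        ((occ_iff _ _ _).1 h.1 5 4).2 (by decide),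
        ((occ_iff _ _ _).1 h.2 0 3).2 (by decide),
        ((occ_iff _ _ _).1 h.2 3 1).2 (by decide),
        ((occ_iff _ _ _).1 h.2 1 2).2 (by decide),
        ((occ_iff _ _ _).1 h.2 2 5).2 (by decide),
        ((occ_iff _ _ _).1 h.2 5 4).2 (by decide),
        τ.injective.ne (by decide),
        τ.injective.ne (by decide),
        τ.injective.ne (by decide),
        τ.injective.ne (by decide),
        τ.injective.ne (by decide)⟩⟩
  refine le_trans (card_le_card_of_injOn (t := Ici (5 : Fin 11)) (fun σ => σ 4) (fun σ h => ?_)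
    (fun σ h τ h' e => ?_)) (by decide)
  · have h := (mem_filter.1 h).2
    obtain ⟨a, b, c, d, e, f, g, i, -, k⟩ := key σ h
    have := k σ h
    simp only [coe_Ici, Set.mem_Ici, Fin.le_def, Fin.lt_def] at this ⊢
    omega
  · have h := (mem_filter.1 h).2
    obtain ⟨a, b, c, d, e', f, g, i, k0, k⟩ := key σ h
    have k1 := k σ h
    have k2 := k τ (mem_filter.1 h').2
    have := (σ i).2
    have := (τ i).2
    simp only [Fin.lt_def, Ne, Fin.ext_iff] at k1 k2 e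
    ext x
    rcases k0 x with h | h | h | h | h | h | h | h | h | h | h <;> subst h <;> omega

theorem c2 : (univ.filter (fun σ => (S t1 t2 σ).Nonempty)).card +
      (univ.filter (fun σ => 0 ∈ S t1 t2 σ ∧ 5 ∈ S t1 t2 σ)).card ≤ ∑ σ, (S t1 t2 σ).card := by
    exact g2 _ _

theorem c3 : ∑ σ, (S t1 t3 σ).card ≤ (univ.filter (fun σ => (S t1 t3 σ).Nonempty)).card +
      (univ.filter (fun σ => 0 ∈ S t1 t3 σ ∧ 5 ∈ S t1 t3 σ)).card := by
    refine g3 _ _ (fun σ i hi j hj hij => ?_)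
    rcases (mem_filter.1 hi).2 with h1 | h1 <;> rcases (mem_filter.1 hj).2 with h2 | h2 <;>
      exact (f4 _ (by simp) _ (by simp) i j hij).resolve_right (fun h => h (clash σ i j _ _ h1 h2))

theorem d3 : (univ.filter (fun σ => 0 ∈ S t1 t3 σ ∧ 5 ∈ S t1 t3 σ)).card ≤ 24 := by
    simp only [S, mem_filter, mem_univ, true_and, or_and_right, and_or_left]
    rw [filter_or, filter_or, filter_or]
    have := six t1 t1 (by simp) (by simp)
    have := six t1 t3 (by simp) (by simp)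
    have := six t3 t1 (by simp) (by simp)
    have := six t3 t3 (by simp) (by simp)
    refine (card_union_le _ _).trans ((add_le_add (card_union_le _ _) (card_union_le _ _)).trans ?_)
    omega

theorem arith (a b N u v x y s t : ℕ) (h1 : a + u = N) (h2 : b + v = N) (h3 : t = s) (h4 : u + x ≤ s)
    (h5 : t ≤ v + y) (h6 : y ≤ 24) (h7 : 25 ≤ x) : b < a := by omega

theorem result : t1 ≠ t3 ∧ alpha 11 t1 t3 < alpha 11 t1 t2 :=
  ⟨f5, arith _ _ _ _ _ _ _ _ _ (alpha_eq t1 t2) (alpha_eq t1 t3)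
    ((total t1 t3 f7).trans (total t1 t2 f6).symm) c2 c3 d3 many⟩

end Pool.Agent.Results.MP_f2c072_co.Eleven
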